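import Pool.Agent.Helper89.Vol5.Goals

/-! # MP_cd13d2_co, project V58, packet P32 -/

set_option autoImplicit false

namespace Pool.Agent.Helper94.Vol5.PkP32

open MeasureTheory Set Pool.Agent.Helper86.Poly Pool.Agent.Helper89.Vol5

/-- The norm in coordinates. -/
lemma nsq (u : E 5) : ‖u‖ ^ 2 = u 0 ^ 2 + u 1 ^ 2 + u 2 ^ 2 + u 3 ^ 2 + u 4 ^ 2 := by
  have h2 := EuclideanSpace.norm_sq_eq u
  rw [Fin.sum_univ_five] at h2
  simpa only [Real.norm_eq_abs, sq_abs] using h2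

/-- Distances in coordinates. -/
lemma coord (u v : E 5) (h : ‖u - v‖ ≤ 1) :
    (u 0 - v 0) ^ 2 + (u 1 - v 1) ^ 2 + (u 2 - v 2) ^ 2 + (u 3 - v 3) ^ 2 +
      (u 4 - v 4) ^ 2 ≤ 1 := by
  have h2 := nsq (u - v)
  simp only [PiLp.sub_apply] at h2
  have h3 : ‖u - v‖ ^ 2 ≤ 1 := by
    have := norm_nonneg (u - v)
    nlinarith
  rw [h2] at h3
  exact h3

/-- A point and a triangle, on one axis. -/
lemma tri (z a b : ℝ) :
    (a ^ 2 + b ^ 2 + (a - b) ^ 2) / 3 ≤ z ^ 2 + (z - a) ^ 2 + (z - b) ^ 2 := by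
  nlinarith [sq_nonneg (3 * z - a - b)]

/-- A point and a segment, on one axis. -/
lemma seg (z c d : ℝ) : (d - c) ^ 2 / 2 ≤ (z - c) ^ 2 + (z - d) ^ 2 := by
  nlinarith [sq_nonneg (2 * z - c - d)]

/-- A triangle and a segment, on one axis. -/
lemma triseg (a b c d : ℝ) :
    2 * (a ^ 2 + b ^ 2 + (a - b) ^ 2) / 3 + 3 * (d - c) ^ 2 / 2 ≤
      c ^ 2 + d ^ 2 + (c - a) ^ 2 + (d - a) ^ 2 + (c - b) ^ 2 + (d - b) ^ 2 := by
  nlinarith [sq_nonneg (3 * (c + d) - 2 * (a + b))]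

theorem thm (h : Pool.Agent.Helper89.Vol4.G_Q22) (hn : Pool.Agent.Helper89.Vol4.G_NUM4)
    (hF : G_FRM5) (hA : G_AX) : G_P32 := by
  intro y hy
  obtain ⟨L, ε, hε, hdt, he0, he1, he'0, he'1, he''0, he''1, hn1, hn0⟩ :=
    hF (y 1 - y 0) (y 2 - y 0) (y 4 - y 3) (y 3 - y 0)
  obtain ⟨x, hx⟩ : ∃ x : Fin 8 → E 5, ∀ k, x k = L (y k - y 0) := ⟨_, fun _ => rfl⟩
  rw [← hx] at he0 he1 he'0 he'1 hn1 hn0
  have hsub : ∀ i j, x i - x j = L (y i - y j) := by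
    intro i j
    rw [hx, hx, ← map_sub]
    congr 1
    abel
  rw [← hsub] at he''0 he''1
  have hd : ∀ i j, ‖x i - x j‖ ≤ 1 := by
    intro i j
    rw [hsub, LinearIsometryEquiv.norm_map, ← dist_eq_norm]
    exact hy i j
  have hco : ∀ i j, (x i 0 - x j 0) ^ 2 + (x i 1 - x j 1) ^ 2 + (x i 2 - x j 2) ^ 2 +
      (x i 3 - x j 3) ^ 2 + (x i 4 - x j 4) ^ 2 ≤ 1 := fun i j => coord (x i) (x j) (hd i j)
  have hx0 : ∀ m : Fin 5, x 0 m = 0 := by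
    intro m
    rw [hx, sub_self, map_zero]
    rfl
  have hx0' : x 0 = 0 := by
    rw [hx, sub_self, map_zero]
  have e40 : x 4 0 = x 3 0 := by
    rw [PiLp.sub_apply] at he''0
    exact sub_eq_zero.1 he''0
  have e41 : x 4 1 = 0 := by
    rw [PiLp.sub_apply] at he''1
    rw [← hn1]
    exact sub_eq_zero.1 he''1
  -- the triangle and the segment
  obtain ⟨s, hs⟩ : ∃ s : ℝ, s = ‖x 1‖ ^ 2 + ‖x 2‖ ^ 2 + ‖x 1 - x 2‖ ^ 2 := ⟨_, rfl⟩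
  obtain ⟨l, hl⟩ : ∃ l : ℝ, l = ‖x 4 - x 3‖ := ⟨_, rfl⟩
  have hsc : s = (x 1 2 ^ 2 + x 2 2 ^ 2 + (x 1 2 - x 2 2) ^ 2) +
      (x 1 3 ^ 2 + x 2 3 ^ 2 + (x 1 3 - x 2 3) ^ 2) +
      (x 1 4 ^ 2 + x 2 4 ^ 2 + (x 1 4 - x 2 4) ^ 2) := by
    rw [hs, nsq, nsq, nsq]
    simp only [PiLp.sub_apply]
    rw [he0, he1, he'0, he'1]
    ring
  have hlc : l ^ 2 = (x 4 2 - x 3 2) ^ 2 + (x 4 3 - x 3 3) ^ 2 + (x 4 4 - x 3 4) ^ 2 := by
    rw [hl, nsq]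
    simp only [PiLp.sub_apply]
    rw [e40, e41, hn1]
    ring
  have hl0 : 0 ≤ l := by
    rw [hl]
    exact norm_nonneg _
  have hl1 : l ≤ 1 := by
    rw [hl]
    exact hd 4 3
  have hs0 : 0 ≤ s := by
    rw [hs]
    positivity
  have hs3 : s ≤ 3 := by
    have h1 := hd 1 0
    have h2 := hd 2 0
    have h3 := hd 1 2
    rw [hx0', sub_zero] at h1 h2
    rw [hs]
    nlinarith [norm_nonneg (x 1), norm_nonneg (x 2), norm_nonneg (x 1 - x 2)]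
  have hlam : (s / 3) ^ 2 / 4 ≤ s / 9 := by nlinarith
  have hz : ∀ k, x k 0 ^ 2 + x k 1 ^ 2 ≤ 1 - (s / 3) ^ 2 / 4 := by
    intro k
    have h0 := hco k 0
    have h1 := hco k 1
    have h2 := hco k 2
    rw [hx0, hx0, hx0, hx0, hx0] at h0
    rw [he0, he1] at h1
    rw [he'0, he'1] at h2
    have t2 := tri (x k 2) (x 1 2) (x 2 2)
    have t3 := tri (x k 3) (x 1 3) (x 2 3)
    have t4 := tri (x k 4) (x 1 4) (x 2 4)
    have h9 : x k 0 ^ 2 + x k 1 ^ 2 ≤ 1 - s / 9 := by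
      rw [hsc]
      linarith
    linarith
  have hz2 : ∀ k, (x k 0 - x 3 0) ^ 2 + x k 1 ^ 2 ≤ 1 - l ^ 2 / 4 := by
    intro k
    have h0 := hco k 3
    have h1 := hco k 4
    rw [hn1] at h0
    rw [e40, e41] at h1
    have t2 := seg (x k 2) (x 3 2) (x 4 2)
    have t3 := seg (x k 3) (x 3 3) (x 4 3)
    have t4 := seg (x k 4) (x 3 4) (x 4 4)
    rw [hlc]
    linarith
  have hb : x 3 0 ^ 2 ≤ 1 - ((s / 3) ^ 2 + l ^ 2) / 4 := by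
    have h1 := hco 3 0
    have h2 := hco 4 0
    have h3 := hco 3 1
    have h4 := hco 4 1
    have h5 := hco 3 2
    have h6 := hco 4 2
    rw [hx0, hx0, hx0, hx0, hx0, hn1] at h1
    rw [hx0, hx0, hx0, hx0, hx0, e40, e41] at h2
    rw [he0, he1, hn1] at h3
    rw [he0, he1, e40, e41] at h4
    rw [he'0, he'1, hn1] at h5
    rw [he'0, he'1, e40, e41] at h6
    have t2 := triseg (x 1 2) (x 2 2) (x 3 2) (x 4 2)
    have t3 := triseg (x 1 3) (x 2 3) (x 3 3) (x 4 3)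
    have t4 := triseg (x 1 4) (x 2 4) (x 3 4) (x 4 4)
    have h9 : x 3 0 ^ 2 ≤ 1 - s / 9 - l ^ 2 / 4 := by
      rw [hsc, hlc]
      linarith
    linarith
  have hp : ∀ i j, (x i 0 - x j 0) ^ 2 + (x i 1 - x j 1) ^ 2 ≤ 1 := by
    intro i j
    have := hco i j
    linarith [sq_nonneg (x i 2 - x j 2), sq_nonneg (x i 3 - x j 3), sq_nonneg (x i 4 - x j 4)]
  have hfin := h 1.049449 (fun N hN => (hn.2.2 N hN).le) (s / 3) l (x 3 0) (x 5 0) (x 5 1)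
    (x 6 0) (x 6 1) (x 7 0) (x 7 1) (by linarith) (by linarith) hl0 hl1 hn0 (hz 5) (hz 6) (hz 7)
    (hz2 5) (hz2 6) (hz2 7) hb (hp 5 6) (hp 5 7) (hp 6 7)
  obtain ⟨Δ, hΔ, -, hΔ2, -⟩ := hA (x 1) (x 2) (x 4 - x 3) he0 he1 he'0 he'1 he''0 he''1
  have hB : ∀ i j, ε * dt (y 1 - y 0) (y 2 - y 0) (y 4 - y 3) (y i - y 0) (y j - y 0) =
      Δ * (x i 0 * x j 1 - x i 1 * x j 0) := by
    intro i j
    rw [← hdt, ← hx, ← hx, ← hx, ← hx, ← hsub]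
    exact hΔ (x i) (x j)
  obtain ⟨S, hS⟩ : ∃ S : ℝ, S = x 3 0 * x 5 1 + (x 5 0 * x 6 1 - x 5 1 * x 6 0) +
      (x 6 0 * x 7 1 - x 6 1 * x 7 0) := ⟨_, rfl⟩
  rw [← hS] at hfin
  have hsq : ε * q32 y = Δ * S := by
    unfold q32
    rw [mul_add ε, mul_add ε, hB, hB, hB, hn1, hS]
    ring
  have hDl : |Δ| ≤ 0.8661 * (s / 3 * l) := by
    apply abs_le_of_sq_le_sq
    · rw [← hl] at hΔ2
      have h5 := norm_sub_sq_real (x 1) (x 2)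
      obtain ⟨p, hp'⟩ : ∃ p : ℝ, p = inner ℝ (x 1) (x 2) := ⟨_, rfl⟩
      rw [← hp'] at h5 hΔ2
      have h6 : 12 * (‖x 1‖ ^ 2 * ‖x 2‖ ^ 2 - p ^ 2) ≤ s ^ 2 := by
        rw [hs, h5]
        nlinarith [sq_nonneg (‖x 1‖ ^ 2 - ‖x 2‖ ^ 2), sq_nonneg (‖x 1‖ ^ 2 - 2 * p),
          sq_nonneg (‖x 2‖ ^ 2 - 2 * p)]
      have h7 : Δ ^ 2 ≤ (s ^ 2 / 12) * l ^ 2 := by
        refine hΔ2.trans (mul_le_mul_of_nonneg_right ?_ (sq_nonneg l))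
        linarith
      have h8 : 0 ≤ s ^ 2 * l ^ 2 := by positivity
      have h9 : (0.8661 * (s / 3 * l)) ^ 2 = (0.8661 ^ 2 / 9) * (s ^ 2 * l ^ 2) := by ring
      rw [h9]
      norm_num at h7 ⊢
      linarith
    · positivity
  have ha : |ε| = 1 := by
    rcases hε with rfl | rfl <;> simp
  have hab : |q32 y| = |Δ| * |S| := by
    rw [← abs_mul, ← hsq, abs_mul, ha, one_mul]
  rw [hab]
  have h1 := mul_le_mul_of_nonneg_right hDl (abs_nonneg S)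
  have h2 : 0.8661 * (s / 3 * l) * |S| = 0.8661 * (s / 3 * l * |S|) := by ring
  rw [h2] at h1
  have h3 : 0.8661 * (s / 3 * l * |S|) ≤ 0.8661 * 1.049449 :=
    mul_le_mul_of_nonneg_left hfin (by norm_num)
  refine (h1.trans h3).trans ?_
  norm_num

end Pool.Agent.Helper94.Vol5.PkP32
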